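import Pool.Agent.TH614.HS.Defs

/-! Statements of the Frobenius-level lemmas of project HS. -/

set_option autoImplicit false

namespace Pool.Agent.TH614.HS

open Polynomial

/-- the three chord relations of a circle root `s` (frame 0), `t` (frame 2), `u` (frame 1) -/
def Tri {L : Type} [Field L] (th x0 x1 x2 y0 y1 y2 s t u k a b c mu0 eta0 mu2 eta2 mu1 eta1 : L) : Prop :=
  ∀ P0 P1 P2 Y, OnL x0 x1 x2 y0 y1 y2 P0 P1 P2 Y →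
    (mu0 * (s * P0) + eta0 * Y) - (mu2 * (t * P2) + eta2 * Y) = a * (s * P0 - t * P2) ∧
    a * ((mu0 * (s * P0) + eta0 * Y) + (mu2 * (t * P2) + eta2 * Y))
      = s * P0 + t * P2 - th * Y - u * P1 / (s * t * u) ∧
    (mu2 * (t * P2) + eta2 * Y) - (mu1 * (u * P1) + eta1 * Y) = b * (t * P2 - u * P1) ∧
    b * ((mu2 * (t * P2) + eta2 * Y) + (mu1 * (u * P1) + eta1 * Y))
      = t * P2 + u * P1 - th * Y - s * P0 / (s * t * u) ∧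
    (mu1 * (u * P1) + eta1 * Y) - k * (mu0 * (s * P0) + eta0 * Y) = c * (u * P1 - s * P0) ∧
    c * ((mu1 * (u * P1) + eta1 * Y) + k * (mu0 * (s * P0) + eta0 * Y))
      = u * P1 + s * P0 - th * Y - t * P2 / (s * t * u)

/-- (TA) -/
def S_TA : Prop := ∀ (L : Type) [Field L]
  (th x0 x1 x2 y0 y1 y2 s t u a b c mu0 eta0 mu2 eta2 mu1 eta1 : L),
  (2 : L) ≠ 0 → th ^ 2 = 3 → PL x0 x1 x2 y0 y1 y2 → s ≠ 0 → t ≠ 0 → u ≠ 0 →
  RDa th x0 x1 x2 y0 y1 y2 s mu0 eta0 →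
  (∀ α β : L, (∀ P0 P1 P2 Y, OnL x0 x1 x2 y0 y1 y2 P0 P1 P2 Y →
      α * l1 s t P0 P2 + β * l2 th s t P0 P1 P2 Y = 0) → α = 0 ∧ β = 0) →
  Tri th x0 x1 x2 y0 y1 y2 s t u 1 a b c mu0 eta0 mu2 eta2 mu1 eta1 →
  a = b ∧ a = c ∧ a ^ 2 = 1 + 1 / (s * t * u)

/-- (TB) -/
def S_TB : Prop := ∀ (L : Type) [Field L]
  (th x0 x1 x2 y0 y1 y2 s t u a b c mu0 eta0 mu2 eta2 mu1 eta1 : L),
  (2 : L) ≠ 0 → th ^ 2 = 3 → PL x0 x1 x2 y0 y1 y2 → s ≠ 0 → t ≠ 0 → u ≠ 0 →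
  Tri th x0 x1 x2 y0 y1 y2 s t u (-1) a b c mu0 eta0 mu2 eta2 mu1 eta1 →
  1 + 1 / (s * t * u) = a * b + b * c - c * a

/-- (TC) arithmetic end of the second case -/
def S_TC : Prop := ∀ (L : Type) [Field L] (D : HD L) (be g ep nu : L),
  (ep = 1 ∨ ep = -1) → be ≠ 0 → g ≠ 0 → be ^ 2 = 1 + g ^ 2 → be ^ (D.q ^ 6) = be →
  be ^ (D.q ^ 3) = -ep * be / g → nu ≠ 0 → nu ^ D.q = nu⁻¹ →
  1 + 1 / nu = -(be * be ^ (D.q ^ 2) + be ^ (D.q ^ 2) * be ^ (D.q ^ 4) + be ^ (D.q ^ 4) * be) →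
  nu ^ ((D.q + 1) / 2) = -1

/-- (T1) the three chord relations of a simple circle root -/
def S_T1 : Prop := ∀ (L : Type) [Field L] [IsAlgClosed L] (D : HD L) (x s mu eta e be g rho ep : L),
  D.isL x → D.circ s → D.Sg x s mu eta e be g rho → D.Ep x s mu eta ep →
  be ^ (D.q ^ 3) = -ep * be / g ∧
  ∃ b : L, b ^ (D.q ^ 2) = e * ep * be ∧ (be ^ (D.q ^ 2)) ^ (D.q ^ 2) = e * ep * b ∧
    Tri D.th x (x ^ (D.q ^ 2)) (x ^ (D.q ^ 4)) (x ^ (D.q ^ 3)) (x ^ (D.q ^ 5)) (x ^ D.q)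
      s (D.nt s) (s ^ (D.q ^ 2)) (e * ep) be b (be ^ (D.q ^ 2)) mu eta
      (e * D.mM x s mu eta) (e * D.mE x s mu eta) (mu ^ (D.q ^ 2)) (eta ^ (D.q ^ 2))

/-- (MT) the transformation M -/
def S_MT : Prop := ∀ (L : Type) [Field L] [IsAlgClosed L] (D : HD L) (x s mu eta : L),
  D.isL x → D.RD x s mu eta →
  D.RD (x ^ (D.q ^ 4)) (D.nt s) (D.mM x s mu eta) (D.mE x s mu eta)

/-- (RT) roots and root data -/
def S_RT : Prop := ∀ (L : Type) [Field L] [IsAlgClosed L] (D : HD L) (x s : L), D.isL x →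
  ((D.Phi x).eval s = 0 → ∃ mu eta, D.RD x s mu eta) ∧
  (∀ mu eta, D.RD x s mu eta → (D.Phi x).eval s = 0 ∧ (mu ≠ 0 ∨ eta ≠ 0))

/-- (CUB) the other roots in terms of a root datum -/
def S_CUB : Prop := ∀ (L : Type) [Field L] (D : HD L) (x s mu eta : L), D.isL x → D.RD x s mu eta →
  ∀ w, (D.Phi x).eval (s * (1 + w)) = x ^ 2 * s ^ 4 * w *
    (w ^ 3 + 4 * eta ^ 2 * w ^ 2 + 4 * D.th * eta * (mu + D.th * eta) * w + 4 * (mu + D.th * eta) ^ 2)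

/-- (G0) evaluation of G -/
def S_G0 : Prop := ∀ (L : Type) [Field L] (D : HD L) (P Y s e : L), D.Pt P Y → s ≠ 0 →
  (D.G e P Y).eval s = s ^ (D.q + 1) *
    (Bq D.th s (D.nt s) P (P ^ (D.q ^ 2)) (P ^ (D.q ^ 4)) Y (P ^ (D.q ^ 3)) (P ^ (D.q ^ 5)) (P ^ D.q) (Y ^ D.q)
      - 2 * e * ((Dq D.th s P (P ^ (D.q ^ 2)) (P ^ (D.q ^ 4)) Y) ^ ((D.q + 1) / 2)
        - (Dq (-D.th) s⁻¹ (P ^ (D.q ^ 3)) (P ^ (D.q ^ 5)) (P ^ D.q) (Y ^ D.q)) ^ ((D.q + 1) / 2)))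

/-- (STAR) self-reciprocity of G -/
def S_STAR : Prop := ∀ (L : Type) [Field L] (D : HD L) (P Y s e : L), D.Pt P Y → s ≠ 0 →
  (e = 1 ∨ e = -1) →
  (D.G e P Y).eval ((s ^ (D.q ^ 3))⁻¹)
    = -((s ^ (D.q ^ 3))⁻¹) ^ (2 * D.q + 2) * ((D.G e P Y).eval s) ^ (D.q ^ 3)

/-- (SGZ) meaning of the sign -/
def S_SGZ : Prop := ∀ (L : Type) [Field L] [IsAlgClosed L] (D : HD L) (x s mu eta e be g rho : L),
  D.isL x → D.Sg x s mu eta e be g rho → D.Zr x s e ∧ ¬ D.Zr x s (-e)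

/-- (EPS) -/
def S_EPS : Prop := ∀ (L : Type) [Field L] [IsAlgClosed L] (D : HD L) (x s mu eta : L),
  D.isL x → D.circ s → D.RD x s mu eta → ∃ ep, D.Ep x s mu eta ep

/-- (C4) -/
def S_C4 : Prop := ∀ (L : Type) [Field L] [IsAlgClosed L] (D : HD L) (x s mu eta ep s' mu' eta' ep' : L),
  D.isL x → D.circ s → D.circ s' → s ≠ s' → D.RD x s mu eta → D.RD x s' mu' eta' →
  mu + D.th * eta ≠ 0 → D.Ep x s mu eta ep → D.Ep x s' mu' eta' ep' →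
  ep * ep' = -(D.Nm s * D.Nm s') ^ ((D.q + 1) / 2)

/-- (CROSS) -/
def S_CROSS : Prop := ∀ (L : Type) [Field L] [IsAlgClosed L] (D : HD L) (x s mu eta ep s' mu' eta' ep' : L),
  D.isL x → D.circ s → D.circ s' → D.RD x s mu eta → D.RD x s' mu' eta' →
  mu + D.th * eta ≠ 0 → mu' + D.th * eta' ≠ 0 → D.Ep x s mu eta ep → D.Ep x s' mu' eta' ep' →
  ep = ep'

/-- (OTH) the other roots, given a simple circle root -/
def S_OTH : Prop := ∀ (L : Type) [Field L] [IsAlgClosed L] (D : HD L) (x s mu eta ep : L),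
  D.isL x → D.circ s → D.RD x s mu eta → mu + D.th * eta ≠ 0 → D.Ep x s mu eta ep →
  ∃ s2 c : L, D.circ s2 ∧ c ≠ 0 ∧
    D.Phi x = C (x ^ 2) * (X - C s) * (X - C s2) * (X - C c) * (X - C ((c ^ (D.q ^ 3))⁻¹))

/-- (RAM) structure at a multiple root -/
def S_RAM : Prop := ∀ (L : Type) [Field L] [IsAlgClosed L] (D : HD L) (x s mu eta : L),
  D.isL x → D.RD x s mu eta → mu + D.th * eta = 0 → ∃ be g ep, D.Ram x s mu eta be g ep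

/-- (RAMG) multiplicity of the Stepanov polynomials at a triple root -/
def S_RAMG : Prop := ∀ (L : Type) [Field L] [IsAlgClosed L] (D : HD L) (x s mu eta be g ep P Y : L),
  D.isL x → D.Ram x s mu eta be g ep → D.mem x P Y →
  (D.G ep P Y).eval s = 0 ∧ (D.G (-ep) P Y).eval s = 0 ∧
  (¬ D.Spc s P Y → (D.G (-ep) P Y).derivative.eval s ≠ 0)

/-- (B3) -/
def S_B3 : Prop := ∀ (L : Type) [Field L] [IsAlgClosed L] (D : HD L)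
  (x x' s mu eta e be g rho mu' eta' be' g' rho' P Y : L),
  D.isL x → D.isL x' → D.Sg x s mu eta e be g rho → D.Sg x' s mu' eta' e be' g' rho' →
  D.mem x P Y → D.mem x' P Y → (D.G (-e) P Y).eval s = 0 →
  Dq D.th s P (P ^ (D.q ^ 2)) (P ^ (D.q ^ 4)) Y ≠ 0 →
  ∃ c, c ^ D.q = c ∧ x' = c * x

/-- (B4) -/
def S_B4 : Prop := ∀ (L : Type) [Field L] [IsAlgClosed L] (D : HD L)
  (x x' s mu eta be g ep mu' eta' e be' g' rho' P Y : L),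
  D.isL x → D.isL x' → D.Ram x s mu eta be g ep → D.Sg x' s mu' eta' e be' g' rho' →
  D.mem x P Y → D.mem x' P Y → ¬ D.Spc s P Y → e = ep

/-- (B5) -/
def S_B5 : Prop := ∀ (L : Type) [Field L] [IsAlgClosed L] (D : HD L)
  (x x' s mu eta be g ep mu' eta' be' g' ep' P Y : L),
  D.isL x → D.isL x' → D.Ram x s mu eta be g ep → D.Ram x' s mu' eta' be' g' ep' →
  D.mem x P Y → D.mem x' P Y → ¬ D.Spc s P Y → ∃ c, c ^ D.q = c ∧ x' = c * x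

/-- (SP1) a degenerate point with `D_s = 0` is special -/
def S_SP1 : Prop := ∀ (L : Type) [Field L] [IsAlgClosed L] (D : HD L) (x s mu eta P Y : L),
  D.isL x → D.RD x s mu eta → D.mem x P Y → (P ≠ 0 ∨ Y ≠ 0) →
  Dq D.th s P (P ^ (D.q ^ 2)) (P ^ (D.q ^ 4)) Y = 0 →
  Dq (-D.th) s⁻¹ (P ^ (D.q ^ 3)) (P ^ (D.q ^ 5)) (P ^ D.q) (Y ^ D.q) = 0 → D.Spc s P Y

/-- (SP2) special points -/
def S_SP2 : Prop := ∀ (L : Type) [Field L] [IsAlgClosed L] (D : HD L) (s P Y : L),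
  s ≠ 0 → P ≠ 0 → D.Pt P Y → D.Spc s P Y →
  D.circ s ∧ D.Nm s = -1 ∧ (∀ s', s' ≠ 0 → D.Spc s' P Y → s' = s) ∧
  ∃ U : Polynomial L, U.eval s ≠ 0 ∧
    X ^ ((D.q + 1) / 2) * D.CC P Y ^ ((D.q + 1) / 2) - D.CD P Y ^ ((D.q + 1) / 2)
      = (X - C s) ^ (3 * ((D.q + 1) / 2)) * U

/-- (DEG) -/
def S_DEG : Prop := ∀ (L : Type) [Field L] (D : HD L) (e P Y : L), (e = 1 ∨ e = -1) → P ≠ 0 →
  (D.G e P Y).natDegree = 2 * D.q + 2 ∧ (D.G e P Y).eval 0 ≠ 0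

/-- the subfield of `q` elements as a finset -/
noncomputable def kset {L : Type} [Field L] (D : HD L) : Finset L :=
  open Classical in (X ^ D.q - X : Polynomial L).roots.toFinset

/-- (PEN) the pencil at an isotropic vector -/
def S_PEN : Prop := ∀ (L : Type) [Field L] [IsAlgClosed L] (D : HD L) (P Y : L), D.Iso P Y → (P ≠ 0 ∨ Y ≠ 0) →
  P ≠ 0 ∧ ∃ a b, D.isL a ∧ D.isL b ∧ D.mem a P Y ∧ D.mem b P Y ∧
    (∀ u v, u ^ D.q = u → v ^ D.q = v → u * a + v * b = 0 → u = 0 ∧ v = 0) ∧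
    (∀ x, D.isL x → D.mem x P Y → ∃ u v, u ^ D.q = u ∧ v ^ D.q = v ∧ x = u * a + v * b) ∧
    (∀ u v, u ^ D.q = u → v ^ D.q = v → u * a + v * b ≠ 0 →
      D.isL (u * a + v * b) ∧ D.mem (u * a + v * b) P Y)

/-- (PROD) the product formula -/
def S_PROD : Prop := ∀ (L : Type) [Field L] [IsAlgClosed L] (D : HD L) (P Y a b : L), D.Iso P Y → P ≠ 0 →
  D.isL a → D.isL b → D.mem a P Y → D.mem b P Y →
  (∀ u v, u ^ D.q = u → v ^ D.q = v → u * a + v * b = 0 → u = 0 ∧ v = 0) →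
  ∃ κ : L, κ ≠ 0 ∧ D.G 1 P Y * D.G (-1) P Y = C κ * (D.Phi b * ∏ l ∈ kset D, D.Phi (a + l * b))

/-- (PR1) product of a binary quadratic form over the projective line of `k` -/
def S_PR1 : Prop := ∀ (L : Type) [Field L] [IsAlgClosed L] (D : HD L) (A B E : Polynomial L),
  2 * (A * ∏ l ∈ kset D, (E + C l * B + C (l ^ 2) * A)) =
    (B ^ 2 - 4 * A * E) ^ ((D.q + 1) / 2) - B ^ (D.q + 1) + 2 * A * E ^ D.q + 2 * E * A ^ D.q

/-- the subspace `π_n` -/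
def PiN {L : Type} [Field L] (D : HD L) (n y : L) : Prop :=
  2 * (n ^ 2 + 1) * y - D.th * n * (y ^ (D.q ^ 2) - y ^ (D.q ^ 4)) =
    n * (-2 * n ^ 2 * y ^ (D.q ^ 3) + (2 * n ^ 2 + 1) * (y ^ (D.q ^ 5) + y ^ D.q))

/-- (CS) the conic of `S` has `q+1` points -/
def S_CS : Prop := ∀ (L : Type) [Field L] [IsAlgClosed L] (D : HD L) (n : L), n ^ (D.q + 1) = 1 →
  {y : L | D.isL y ∧ PiN D n y}.ncard = D.q ^ 2 - 1

/-- (CR) they have the root `S^2` -/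
def S_CR : Prop := ∀ (L : Type) [Field L] [IsAlgClosed L] (D : HD L) (x S : L), D.isL x → D.circ S →
  PiN D (D.Nm S) (S ^ 2 * x) → (D.Phi x).eval (S ^ 2) = 0

/-- (NL) number of generators (vectors) -/
def S_NL : Prop := ∀ (L : Type) [Field L] [IsAlgClosed L] (D : HD L),
  {x : L | D.isL x}.ncard = (D.q ^ 2 - 1) * (D.q ^ 3 + 1) ∧ {s : L | D.circ s}.ncard = D.q ^ 3 + 1

/-- the model theorem -/
def S_MODEL : Prop := ∀ (L : Type) [Field L] [IsAlgClosed L] (D : HD L), ∃ Pos : L → Prop,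
  (∀ x c, D.isL x → c ^ D.q = c → c ≠ 0 → (Pos (c * x) ↔ Pos x)) ∧
  (∀ x a, D.isL x → a ^ (D.q ^ 2 - D.q + 1) = 1 → (Pos (a * x) ↔ Pos x)) ∧
  ∀ P Y, D.Iso P Y → (P ≠ 0 ∨ Y ≠ 0) →
    {x : L | D.isL x ∧ D.mem x P Y ∧ Pos x}.ncard = (D.q ^ 2 - 1) / 2

/-- (HDEX) existence of the data over the algebraic closure of a finite field of order `q^2` -/
def S_HDEX : Prop := ∀ (F : Type) [Field F] [Fintype F] (q : ℕ), Fintype.card F = q ^ 2 → q % 4 = 1 →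
  (q % 3 = 0 ∨ q % 3 = 2) → ∃ D : HD (AlgebraicClosure F), D.q = q

/-- (ISOM) isometry of the two models of the Hermitian space -/
def S_ISOM : Prop := ∀ (F : Type) [Field F] [Fintype F] (q : ℕ), Fintype.card F = q ^ 2 →
  ∀ D : HD (AlgebraicClosure F), D.q = q →
  ∃ Ψ : (Fin 4 → F) → AlgebraicClosure F × AlgebraicClosure F,
    Function.Injective Ψ ∧ (∀ P Y, D.Pt P Y → ∃ v, Ψ v = (P, Y)) ∧ (∀ v, D.Pt (Ψ v).1 (Ψ v).2) ∧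
    (∀ v w, Ψ (v + w) = Ψ v + Ψ w) ∧
    (∀ (c : F) v, Ψ (c • v) = (algebraMap F (AlgebraicClosure F) c * (Ψ v).1,
        algebraMap F (AlgebraicClosure F) c * (Ψ v).2)) ∧
    (∀ v w, algebraMap F (AlgebraicClosure F) (∑ i, v i * w i ^ q) =
      (Ψ v).2 * (Ψ w).2 ^ q + ((Ψ v).1 * (Ψ w).1 ^ (q ^ 3)
        + (Ψ v).1 ^ (q ^ 2) * (Ψ w).1 ^ (q ^ 5) + (Ψ v).1 ^ (q ^ 4) * (Ψ w).1 ^ q))

/-- (TRANS) from the model to the frozen statement -/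
def S_TRANS : Prop := S_MODEL → S_HDEX → S_ISOM →
  ∀ (F : Type) [Field F] [Fintype F] (q : ℕ), Fintype.card F = q ^ 2 → q % 4 = 1 →
    (q % 3 = 0 ∨ q % 3 = 2) →
    ∃ (S : Set (Submodule F (Fin 4 → F))) (g : (Fin 4 → F) ≃+ (Fin 4 → F)) (τ : F ≃+* F),
      (∀ L ∈ S, Module.finrank F L = 2 ∧ ∀ x ∈ L, ∀ y ∈ L, ∑ i, x i * y i ^ q = 0) ∧
      (∀ P : Submodule F (Fin 4 → F), Module.finrank F P = 1 →
          (∀ x ∈ P, ∑ i, x i ^ (q + 1) = 0) →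
          Set.ncard {L | L ∈ S ∧ P ≤ L} = (q + 1) / 2) ∧
      (∀ (c : F) (x : Fin 4 → F), g (c • x) = τ c • g x) ∧
      (∀ x : Fin 4 → F, (∑ i, g x i ^ (q + 1) = 0 ↔ ∑ i, x i ^ (q + 1) = 0)) ∧
      (∀ L ∈ S, ∃ L' ∈ S, (L' : Set (Fin 4 → F)) = ⇑g '' (L : Set (Fin 4 → F))) ∧
      (∀ v : Fin 4 → F, ∃ c : F, (⇑g)^[q ^ 2 - q + 1] v = c • v) ∧
      (∀ k : ℕ, 0 < k → k < q ^ 2 - q + 1 → ∃ v : Fin 4 → F, ∀ c : F, (⇑g)^[k] v ≠ c • v)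

end Pool.Agent.TH614.HS
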