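import Pool.Agent.TH614.HS.Defs3

/-! Common facts for project HS. -/

set_option autoImplicit false

namespace Pool.Agent.TH614.HS

open Polynomial

namespace HD
variable {L : Type} [Field L] (D : HD L)

theorem qodd : Odd D.q := by
  have := D.h4
  exact Nat.odd_iff.mpr (by omega)

theorem q_ne : D.q ≠ 0 := by have := D.h5; omega

include D in
theorem two_ne : (2 : L) ≠ 0 := by
  intro h
  have h1 : ((D.q : ℕ) : L) = 1 := by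
    obtain ⟨k, hk⟩ := D.qodd
    rw [hk]; push_cast; rw [h]; ring
  have h2 := D.qz
  rw [h1] at h2
  exact one_ne_zero h2

include D in
theorem four_ne : (4 : L) ≠ 0 := by
  have : (4 : L) = 2 * 2 := by norm_num
  rw [this]; exact mul_ne_zero D.two_ne D.two_ne

/-- the `q`-power map as a ring homomorphism -/
def fr : L →+* L where
  toFun := fun x => x ^ D.q
  map_one' := one_pow _
  map_mul' := fun a b => mul_pow a b _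
  map_zero' := zero_pow D.q_ne
  map_add' := D.add

theorem fr_def (x : L) : D.fr x = x ^ D.q := rfl

theorem addn (n : ℕ) (x y : L) : (x + y) ^ (D.q ^ n) = x ^ (D.q ^ n) + y ^ (D.q ^ n) := by
  induction n with
  | zero => simp
  | succ k ih => rw [pow_succ, pow_mul, ih, D.add, ← pow_mul, ← pow_mul]

/-- the `q^n`-power map as a ring homomorphism -/
def frn (n : ℕ) : L →+* L where
  toFun := fun x => x ^ (D.q ^ n)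
  map_one' := one_pow _
  map_mul' := fun a b => mul_pow a b _
  map_zero' := zero_pow (pow_ne_zero n D.q_ne)
  map_add' := D.addn n

theorem frn_def (n : ℕ) (x : L) : D.frn n x = x ^ (D.q ^ n) := rfl

theorem neg_q (x : L) : (-x) ^ D.q = -x ^ D.q := D.qodd.neg_pow x

theorem sub_q (x y : L) : (x - y) ^ D.q = x ^ D.q - y ^ D.q := by
  rw [sub_eq_add_neg, D.add, D.neg_q, ← sub_eq_add_neg]

theorem negn (n : ℕ) (x : L) : (-x) ^ (D.q ^ n) = -x ^ (D.q ^ n) := (D.qodd.pow).neg_pow x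

theorem subn (n : ℕ) (x y : L) : (x - y) ^ (D.q ^ n) = x ^ (D.q ^ n) - y ^ (D.q ^ n) := by
  rw [sub_eq_add_neg, D.addn, D.negn, ← sub_eq_add_neg]

theorem natn (n k : ℕ) : ((k : L)) ^ (D.q ^ n) = k := by
  have := map_natCast (D.frn n) k
  exact this

theorem nat_q (k : ℕ) : ((k : L)) ^ D.q = k := by
  have := map_natCast D.fr k
  exact this

theorem ofNatn (n k : ℕ) [k.AtLeastTwo] : (OfNat.ofNat k : L) ^ (D.q ^ n) = OfNat.ofNat k := by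
  have := map_ofNat (D.frn n) k
  exact this

theorem ofNat_q (k : ℕ) [k.AtLeastTwo] : (OfNat.ofNat k : L) ^ D.q = OfNat.ofNat k := by
  have := map_ofNat D.fr k
  exact this

/-- iterating -/
theorem pp (x : L) (a b : ℕ) : (x ^ (D.q ^ a)) ^ (D.q ^ b) = x ^ (D.q ^ (a + b)) := by
  rw [← pow_mul, ← pow_add]

theorem pq (x : L) (a : ℕ) : (x ^ (D.q ^ a)) ^ D.q = x ^ (D.q ^ (a + 1)) := by
  rw [← pow_mul, ← pow_succ]

theorem qp (x : L) (a : ℕ) : (x ^ D.q) ^ (D.q ^ a) = x ^ (D.q ^ (a + 1)) := by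
  rw [← pow_mul, ← pow_succ']

theorem qq (x : L) : (x ^ D.q) ^ D.q = x ^ (D.q ^ 2) := by
  rw [← pow_mul, ← pow_two]

theorem p6 {x : L} (hx : x ^ (D.q ^ 6) = x) (a : ℕ) : x ^ (D.q ^ (a + 6)) = x ^ (D.q ^ a) := by
  rw [add_comm, ← D.pp, hx]

theorem p7 {x : L} (hx : x ^ (D.q ^ 6) = x) : x ^ (D.q ^ 7) = x ^ D.q := by
  have := D.p6 hx 1
  simpa using this

theorem p8 {x : L} (hx : x ^ (D.q ^ 6) = x) : x ^ (D.q ^ 8) = x ^ (D.q ^ 2) := D.p6 hx 2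
theorem p9 {x : L} (hx : x ^ (D.q ^ 6) = x) : x ^ (D.q ^ 9) = x ^ (D.q ^ 3) := D.p6 hx 3
theorem p10 {x : L} (hx : x ^ (D.q ^ 6) = x) : x ^ (D.q ^ 10) = x ^ (D.q ^ 4) := D.p6 hx 4
theorem p11 {x : L} (hx : x ^ (D.q ^ 6) = x) : x ^ (D.q ^ 11) = x ^ (D.q ^ 5) := D.p6 hx 5

theorem inj_q {x y : L} (h : x ^ D.q = y ^ D.q) : x = y := D.fr.injective h
theorem injn (n : ℕ) {x y : L} (h : x ^ (D.q ^ n) = y ^ (D.q ^ n)) : x = y := (D.frn n).injective h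

theorem surjn [IsAlgClosed L] (n : ℕ) (y : L) : ∃ x : L, x ^ (D.q ^ n) = y :=
  IsAlgClosed.exists_pow_nat_eq y (pow_pos (Nat.pos_of_ne_zero D.q_ne) n)

theorem surj_q [IsAlgClosed L] (y : L) : ∃ x : L, x ^ D.q = y :=
  IsAlgClosed.exists_pow_nat_eq y (Nat.pos_of_ne_zero D.q_ne)

theorem th_ne_neg : (2 : L) * D.th = 0 → D.th = 0 := fun h => by
  rcases mul_eq_zero.mp h with h | h
  · exact absurd h D.two_ne
  · exact h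

theorem th_q2 : D.th ^ (D.q ^ 2) = D.th := by
  rw [← D.qq, D.thq, D.neg_q, D.thq, neg_neg]
theorem th_q3 : D.th ^ (D.q ^ 3) = -D.th := by
  rw [← D.pq _ 2, D.th_q2, D.thq]
theorem th_q4 : D.th ^ (D.q ^ 4) = D.th := by
  rw [← D.pp _ 2 2, D.th_q2, D.th_q2]
theorem th_q6 : D.th ^ (D.q ^ 6) = D.th := by
  rw [← D.pp _ 4 2, D.th_q4, D.th_q2]
theorem ii_n (n : ℕ) : D.ii ^ (D.q ^ n) = D.ii := by
  induction n with
  | zero => simp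
  | succ k ih => rw [pow_succ, pow_mul, ih, D.iiq]

theorem sgn_n {e : L} (he : e = 1 ∨ e = -1) (n : ℕ) : e ^ (D.q ^ n) = e := by
  rcases he with h | h <;> subst h
  · simp
  · rw [D.negn]; simp
theorem sgn_q {e : L} (he : e = 1 ∨ e = -1) : e ^ D.q = e := by
  have := D.sgn_n he 1
  simpa using this

variable {D}

theorem isL.ne {x : L} (h : D.isL x) : x ≠ 0 := h.1
theorem isL.p6 {x : L} (h : D.isL x) : x ^ (D.q ^ 6) = x := h.2.1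

theorem isL.PL {x : L} (h : D.isL x) :
    HS.PL x (x ^ (D.q ^ 2)) (x ^ (D.q ^ 4)) (x ^ (D.q ^ 3)) (x ^ (D.q ^ 5)) (x ^ D.q) :=
  ⟨h.1, pow_ne_zero _ h.1, pow_ne_zero _ h.1, pow_ne_zero _ h.1, pow_ne_zero _ h.1, pow_ne_zero _ h.1,
    h.2.2⟩

/-- points of `x` lie on the line -/
theorem mem.onL {x P Y : L} (hx : D.isL x) (h : D.mem x P Y) :
    OnL x (x ^ (D.q ^ 2)) (x ^ (D.q ^ 4)) (x ^ (D.q ^ 3)) (x ^ (D.q ^ 5)) (x ^ D.q)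
      P (P ^ (D.q ^ 2)) (P ^ (D.q ^ 4)) Y := by
  obtain ⟨⟨hP, hY⟩, h0⟩ := h
  have hx6 := hx.p6
  have h1 : (x ^ (D.q ^ 2) * P ^ (D.q ^ 4) - x ^ (D.q ^ 4) * P ^ (D.q ^ 2)) ^ (D.q ^ 2)
      = (Y * x ^ (D.q ^ 3)) ^ (D.q ^ 2) := by rw [h0]
  rw [D.subn, mul_pow, mul_pow, mul_pow, D.pp, D.pp, D.pp, D.pp, D.pp] at h1
  norm_num at h1
  rw [hx6, hP, hY] at h1
  have h2 : (x ^ (D.q ^ 4) * P - x * P ^ (D.q ^ 4)) ^ (D.q ^ 2)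
      = (Y * x ^ (D.q ^ 5)) ^ (D.q ^ 2) := by rw [h1]
  rw [D.subn, mul_pow, mul_pow, mul_pow, D.pp, D.pp, D.pp] at h2
  norm_num at h2
  rw [hx6, hP, hY, D.p7 hx6] at h2
  exact ⟨h0, h1, h2⟩

/-- the conjugate point lies on the dual line -/
theorem mem.onL' {x P Y : L} (hx : D.isL x) (h : D.mem x P Y) :
    OnL (x ^ (D.q ^ 3)) (x ^ (D.q ^ 5)) (x ^ D.q) x (x ^ (D.q ^ 2)) (x ^ (D.q ^ 4))
      (P ^ (D.q ^ 3)) (P ^ (D.q ^ 5)) (P ^ D.q) (Y ^ D.q) := by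
  obtain ⟨h0, h1, h2⟩ := h.onL hx
  obtain ⟨⟨hP, hY⟩, -⟩ := h
  have hx6 := hx.p6
  have hY3 : Y ^ (D.q ^ 3) = Y ^ D.q := by
    rw [← D.pq _ 2, hY]
  have g0 : (x ^ (D.q ^ 2) * P ^ (D.q ^ 4) - x ^ (D.q ^ 4) * P ^ (D.q ^ 2)) ^ (D.q ^ 3)
      = (Y * x ^ (D.q ^ 3)) ^ (D.q ^ 3) := by rw [h0]
  have g1 : (x ^ (D.q ^ 4) * P - x * P ^ (D.q ^ 4)) ^ (D.q ^ 3)
      = (Y * x ^ (D.q ^ 5)) ^ (D.q ^ 3) := by rw [h1]
  have g2 : (x * P ^ (D.q ^ 2) - x ^ (D.q ^ 2) * P) ^ (D.q ^ 3)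
      = (Y * x ^ D.q) ^ (D.q ^ 3) := by rw [h2]
  rw [D.subn, mul_pow, mul_pow, mul_pow] at g0 g1 g2
  simp only [D.pp, D.qp] at g0 g1 g2
  norm_num at g0 g1 g2
  simp only [D.p7 hx6, D.p8 hx6, D.p7 hP, hx6, hY3] at g0 g1 g2
  exact ⟨g0, g1, g2⟩

/-- `q`-th root of a point of the line lies on the dual line -/
theorem root1 [IsAlgClosed L] {x P0 P1 P2 Y : L} (hx : D.isL x)
    (h : OnL x (x ^ (D.q ^ 2)) (x ^ (D.q ^ 4)) (x ^ (D.q ^ 3)) (x ^ (D.q ^ 5)) (x ^ D.q) P0 P1 P2 Y) :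
    ∃ R0 R1 R2 Z : L,
      OnL (x ^ (D.q ^ 3)) (x ^ (D.q ^ 5)) (x ^ D.q) x (x ^ (D.q ^ 2)) (x ^ (D.q ^ 4)) R0 R1 R2 Z ∧
      R0 ^ D.q = P2 ∧ R1 ^ D.q = P0 ∧ R2 ^ D.q = P1 ∧ Z ^ D.q = Y := by
  obtain ⟨R0, h0⟩ := D.surj_q P2
  obtain ⟨R1, h1⟩ := D.surj_q P0
  obtain ⟨R2, h2⟩ := D.surj_q P1
  obtain ⟨Z, h3⟩ := D.surj_q Y
  have hx6 := hx.p6
  refine ⟨R0, R1, R2, Z, ?_, h0, h1, h2, h3⟩
  subst h0 h1 h2 h3
  obtain ⟨k0, k1, k2⟩ := h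
  refine ⟨D.inj_q ?_, D.inj_q ?_, D.inj_q ?_⟩
  · rw [D.sub_q, mul_pow, mul_pow, mul_pow, D.pq, D.qq, hx6]
    exact k2
  · rw [D.sub_q, mul_pow, mul_pow, mul_pow, D.pq, D.pq, D.qq]
    exact k0
  · rw [D.sub_q, mul_pow, mul_pow, mul_pow, D.pq, D.pq, D.pq, hx6]
    exact k1

/-- `q`-th root of a point of the dual line lies on the line -/
theorem root2 [IsAlgClosed L] {x R0 R1 R2 Z : L} (hx : D.isL x)
    (h : OnL (x ^ (D.q ^ 3)) (x ^ (D.q ^ 5)) (x ^ D.q) x (x ^ (D.q ^ 2)) (x ^ (D.q ^ 4)) R0 R1 R2 Z) :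
    ∃ P0 P1 P2 Y : L,
      OnL x (x ^ (D.q ^ 2)) (x ^ (D.q ^ 4)) (x ^ (D.q ^ 3)) (x ^ (D.q ^ 5)) (x ^ D.q) P0 P1 P2 Y ∧
      P0 ^ D.q = R2 ∧ P1 ^ D.q = R0 ∧ P2 ^ D.q = R1 ∧ Y ^ D.q = Z := by
  obtain ⟨P0, h0⟩ := D.surj_q R2
  obtain ⟨P1, h1⟩ := D.surj_q R0
  obtain ⟨P2, h2⟩ := D.surj_q R1
  obtain ⟨Y, h3⟩ := D.surj_q Z
  have hx6 := hx.p6
  refine ⟨P0, P1, P2, Y, ?_, h0, h1, h2, h3⟩
  subst h0 h1 h2 h3
  obtain ⟨k0, k1, k2⟩ := h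
  refine ⟨D.inj_q ?_, D.inj_q ?_, D.inj_q ?_⟩
  · rw [D.sub_q, mul_pow, mul_pow, mul_pow, D.pq, D.pq, D.pq]
    exact k2
  · rw [D.sub_q, mul_pow, mul_pow, mul_pow, D.pq, D.pq, hx6]
    exact k0
  · rw [D.sub_q, mul_pow, mul_pow, mul_pow, D.pq, D.qq]
    exact k1

/-- `q^2`-th root of a point of the line lies on the line -/
theorem root3 [IsAlgClosed L] {x P0 P1 P2 Y : L} (hx : D.isL x)
    (h : OnL x (x ^ (D.q ^ 2)) (x ^ (D.q ^ 4)) (x ^ (D.q ^ 3)) (x ^ (D.q ^ 5)) (x ^ D.q) P0 P1 P2 Y) :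
    ∃ Q0 Q1 Q2 Z : L,
      OnL x (x ^ (D.q ^ 2)) (x ^ (D.q ^ 4)) (x ^ (D.q ^ 3)) (x ^ (D.q ^ 5)) (x ^ D.q) Q0 Q1 Q2 Z ∧
      Q0 ^ (D.q ^ 2) = P1 ∧ Q1 ^ (D.q ^ 2) = P2 ∧ Q2 ^ (D.q ^ 2) = P0 ∧ Z ^ (D.q ^ 2) = Y := by
  obtain ⟨R0, R1, R2, Z, hR, h0, h1, h2, h3⟩ := root1 hx h
  obtain ⟨Q0, Q1, Q2, W, hQ, g0, g1, g2, g3⟩ := root2 hx hR
  refine ⟨Q0, Q1, Q2, W, hQ, ?_, ?_, ?_, ?_⟩
  · rw [← D.qq, g0, h2]
  · rw [← D.qq, g1, h0]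
  · rw [← D.qq, g2, h1]
  · rw [← D.qq, g3, h3]

/-- a point of the line is determined by `(P0, Y)`, which is arbitrary -/
theorem _root_.Pool.Agent.TH614.HS.OnL.param {x0 x1 x2 y0 y1 y2 : L} (h : HS.PL x0 x1 x2 y0 y1 y2) (P0 Y : L) :
    OnL x0 x1 x2 y0 y1 y2 P0 ((x1 * P0 + Y * y2) / x0) ((x2 * P0 - Y * y1) / x0) Y := by
  obtain ⟨hx0, -, -, -, -, -, hp⟩ := h
  refine ⟨?_, ?_, ?_⟩
  · field_simp
    linear_combination (-Y) * hp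
  · field_simp; ring
  · field_simp; ring

/-- circle facts -/
theorem circ.inv {s : L} (h : D.circ s) : s ^ (D.q ^ 3) = s⁻¹ := by
  unfold circ at h
  rw [pow_succ] at h
  exact eq_inv_of_mul_eq_one_left h

theorem circ.ne {s : L} (h : D.circ s) : s ≠ 0 := by
  rintro rfl
  unfold circ at h
  rw [zero_pow (Nat.succ_ne_zero _)] at h
  exact zero_ne_one h

theorem circ.nt {s : L} (h : D.circ s) : D.nt s = s ^ (D.q ^ 4) := by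
  have h1 := h.inv
  have h2 : (s ^ (D.q ^ 3)) ^ D.q = s⁻¹ ^ D.q := by rw [h1]
  rw [D.pq, inv_pow] at h2
  exact h2.symm

end HD

end Pool.Agent.TH614.HS
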