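import Mathlib

/-!
Project HS (helper614): S09649 / MP_7aba51_co, hemisystems of H(3,q^2) invariant under C_(q^2-q+1).
Everything lives in one algebraically closed field `L` of odd characteristic with its `q`-power map.
Notation: for `x` with `x^(q^6) = x`:  x0 = x, x1 = x^(q^2), x2 = x^(q^4), y0 = x^(q^3), y1 = x^(q^5), y2 = x^q
(so `y_j` is the `q^3`-conjugate of `x_j`), and the same with P0,P1,P2 and R0,R1,R2 for `P`.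
-/

set_option autoImplicit false

namespace Pool.Agent.TH614.HS

open Polynomial

/-! ## algebraic layer (no Frobenius) -/
section alg
variable {L : Type} [Field L]

/-- `(P0,P1,P2,Y)` lies on the line with Plücker coordinates `(x0,x1,x2;y0,y1,y2)`.
The dual line has coordinates `(y0,y1,y2;x0,x1,x2)`; its points are written `(R0,R1,R2,Z)`. -/
def OnL (x0 x1 x2 y0 y1 y2 P0 P1 P2 Y : L) : Prop :=
  x1 * P2 - x2 * P1 = Y * y0 ∧ x2 * P0 - x0 * P2 = Y * y1 ∧ x0 * P1 - x1 * P0 = Y * y2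

/-- nondegenerate Plücker coordinates -/
def PL (x0 x1 x2 y0 y1 y2 : L) : Prop :=
  x0 ≠ 0 ∧ x1 ≠ 0 ∧ x2 ≠ 0 ∧ y0 ≠ 0 ∧ y1 ≠ 0 ∧ y2 ≠ 0 ∧ x0 * y0 + x1 * y1 + x2 * y2 = 0

/-- the quadric `D_s` (frame 0); frame 2 is `Dq th t P2 P0 P1 Y`; the dual one is `Dq (-th) s⁻¹ R0 R1 R2 Z` -/
def Dq (th s P0 P1 P2 Y : L) : L := Y ^ 2 - th * s * P0 * Y + s ^ 2 * P0 ^ 2 + P1 * P2 / s

/-- the sesquilinear form `b_{s,t}` (frames 0,2) -/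
def Bq (th s t P0 P1 P2 Y R0 R1 R2 Z : L) : L :=
  s * t * Y * R1 - Z * P1 / (s * t) - 2 * (s * P0 * Z - R0 * Y / s) - 2 * (t * P2 * Z - R2 * Y / t)
    - th * (s / t * P0 * R2 + t / s * P2 * R0) - 2 * th * (P0 * R0 + P2 * R2)

/-- root datum: on the line, `D_s = (mu*s*P0 + eta*Y)^2` -/
def RDa (th x0 x1 x2 y0 y1 y2 s mu eta : L) : Prop :=
  ∀ P0 P1 P2 Y, OnL x0 x1 x2 y0 y1 y2 P0 P1 P2 Y →
    Dq th s P0 P1 P2 Y = (mu * s * P0 + eta * Y) ^ 2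

/-- the linear forms `l1, l2` (unprimed) and `m1, m2` (their duals) -/
def l1 (s t P0 P2 : L) : L := s * P0 - t * P2
def l2 (th s t P0 P1 P2 Y : L) : L := s * P0 + t * P2 - th * Y - P1 / (s * t)
def m1 (s t R0 R2 : L) : L := R0 / s - R2 / t
def m2 (th s t R0 R1 R2 Z : L) : L := R0 / s + R2 / t + th * Z - s * t * R1

/-- dual (hat) of the form `mu*s*P0 + eta*Y` attached to the root datum `(s,mu,eta)` of the line with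
coordinates `x0..., y0...` (only `x0, y0` matter): a linear form in `(R0,Z)` -/
def hat (th s x0 y0 mu eta R0 Z : L) : L :=
  (2 * mu + th * eta) * (s ^ 2 * x0 / y0) * (R0 / s) + (th * mu + 2 * eta) * (s ^ 2 * x0 / y0) * Z

/-- unprimed chord relations between root data `(s,mu,eta)` (frame 0) and `(t,mu2,eta2)` (frame 2) -/
def ChU (th x0 x1 x2 y0 y1 y2 s t mu eta mu2 eta2 H be g rho : L) : Prop :=
  (H = 1 ∨ H = -1) ∧ be ≠ 0 ∧ g ≠ 0 ∧ be ^ 2 = 1 + g ^ 2 ∧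
  (∀ a b : L, (∀ P0 P1 P2 Y, OnL x0 x1 x2 y0 y1 y2 P0 P1 P2 Y →
      a * l1 s t P0 P2 + b * l2 th s t P0 P1 P2 Y = 0) → a = 0 ∧ b = 0) ∧
  (∀ P0 P1 P2 Y, OnL x0 x1 x2 y0 y1 y2 P0 P1 P2 Y →
     (mu * s * P0 + eta * Y) - H * (mu2 * t * P2 + eta2 * Y) = be * l1 s t P0 P2 ∧
     (mu * s * P0 + eta * Y) + H * (mu2 * t * P2 + eta2 * Y) = l2 th s t P0 P1 P2 Y / be ∧
     Y + th * (P1 / (s * t)) = g * l1 s t P0 P2 + rho * l2 th s t P0 P1 P2 Y ∧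
     4 * (P1 / (s * t)) = -2 * g * rho * l1 s t P0 P2
        - (g ^ 2 / (1 + g ^ 2) + rho ^ 2) * l2 th s t P0 P1 P2 Y)

/-- dual relations, part 1 -/
def ChD (th x0 x1 x2 y0 y1 y2 s t g rho : L) : Prop :=
  (∀ a b : L, (∀ R0 R1 R2 Z, OnL y0 y1 y2 x0 x1 x2 R0 R1 R2 Z →
      a * m1 s t R0 R2 + b * m2 th s t R0 R1 R2 Z = 0) → a = 0 ∧ b = 0) ∧
  (∀ R0 R1 R2 Z, OnL y0 y1 y2 x0 x1 x2 R0 R1 R2 Z →
     Z - th * (s * t * R1) = m1 s t R0 R2 / g + (rho + th) * m2 th s t R0 R1 R2 Z)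

/-- dual relations, part 2 (hats) -/
def ChH (th x0 x1 x2 y0 y1 y2 s t mu eta mu2 eta2 H be g : L) : Prop :=
  ∀ R0 R1 R2 Z, OnL y0 y1 y2 x0 x1 x2 R0 R1 R2 Z →
     hat th s x0 y0 mu eta R0 Z - H * hat th t x2 y2 mu2 eta2 R2 Z = -(be / g) * m1 s t R0 R2 ∧
     hat th s x0 y0 mu eta R0 Z + H * hat th t x2 y2 mu2 eta2 R2 Z = -(g / be) * m2 th s t R0 R1 R2 Z

/-- the form `b_{s,t}` on the line times its dual -/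
def ChB (th x0 x1 x2 y0 y1 y2 s t g : L) : Prop :=
  ∀ P0 P1 P2 Y R0 R1 R2 Z, OnL x0 x1 x2 y0 y1 y2 P0 P1 P2 Y → OnL y0 y1 y2 x0 x1 x2 R0 R1 R2 Z →
    Bq th s t P0 P1 P2 Y R0 R1 R2 Z
      = -g * l1 s t P0 P2 * m2 th s t R0 R1 R2 Z + l2 th s t P0 P1 P2 Y * m1 s t R0 R2 / g

/-- full chord structure -/
def Ch (th x0 x1 x2 y0 y1 y2 s t mu eta mu2 eta2 H be g rho : L) : Prop :=
  ChU th x0 x1 x2 y0 y1 y2 s t mu eta mu2 eta2 H be g rho ∧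
  ChD th x0 x1 x2 y0 y1 y2 s t g rho ∧
  ChH th x0 x1 x2 y0 y1 y2 s t mu eta mu2 eta2 H be g ∧
  ChB th x0 x1 x2 y0 y1 y2 s t g

end alg

/-! ## statements of the algebraic lemmas -/

/-- (HAT) a root datum gives a root datum of the dual line -/
def S_HAT : Prop := ∀ (L : Type) [Field L] (th x0 x1 x2 y0 y1 y2 s mu eta : L), (2 : L) ≠ 0 → th ^ 2 = 3 →
  PL x0 x1 x2 y0 y1 y2 → s ≠ 0 → RDa th x0 x1 x2 y0 y1 y2 s mu eta →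
  RDa (-th) y0 y1 y2 x0 x1 x2 s⁻¹
    ((2 * mu + th * eta) * (s ^ 2 * x0 / y0)) ((th * mu + 2 * eta) * (s ^ 2 * x0 / y0))

/-- (L2) if `l2` vanishes on the line then both roots are multiple -/
def S_L2 : Prop := ∀ (L : Type) [Field L] (th x0 x1 x2 y0 y1 y2 s t mu eta mu2 eta2 : L),
  (2 : L) ≠ 0 → th ^ 2 = 3 →
  PL x0 x1 x2 y0 y1 y2 → s ≠ 0 → t ≠ 0 → RDa th x0 x1 x2 y0 y1 y2 s mu eta →
  RDa th x2 x0 x1 y2 y0 y1 t mu2 eta2 →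
  (∀ P0 P1 P2 Y, OnL x0 x1 x2 y0 y1 y2 P0 P1 P2 Y → l2 th s t P0 P1 P2 Y = 0) →
  mu + th * eta = 0 ∧ mu2 + th * eta2 = 0

/-- (CH1) existence of the chord -/
def S_CH1 : Prop := ∀ (L : Type) [Field L] (th x0 x1 x2 y0 y1 y2 s t mu eta mu2 eta2 : L),
  (2 : L) ≠ 0 → th ^ 2 = 3 →
  PL x0 x1 x2 y0 y1 y2 → s ≠ 0 → t ≠ 0 → RDa th x0 x1 x2 y0 y1 y2 s mu eta →
  RDa th x2 x0 x1 y2 y0 y1 t mu2 eta2 →
  (∃ P0 P1 P2 Y, OnL x0 x1 x2 y0 y1 y2 P0 P1 P2 Y ∧ l2 th s t P0 P1 P2 Y ≠ 0) →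
  ∃ H be g rho, ChU th x0 x1 x2 y0 y1 y2 s t mu eta mu2 eta2 H be g rho

/-- (CH2) dual relations -/
def S_CH2 : Prop := ∀ (L : Type) [Field L] (th x0 x1 x2 y0 y1 y2 s t mu eta mu2 eta2 H be g rho : L),
  (2 : L) ≠ 0 → th ^ 2 = 3 → PL x0 x1 x2 y0 y1 y2 → s ≠ 0 → t ≠ 0 →
  ChU th x0 x1 x2 y0 y1 y2 s t mu eta mu2 eta2 H be g rho →
  ChD th x0 x1 x2 y0 y1 y2 s t g rho

/-- (CH3) hats -/
def S_CH3 : Prop := ∀ (L : Type) [Field L] (th x0 x1 x2 y0 y1 y2 s t mu eta mu2 eta2 H be g rho : L),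
  (2 : L) ≠ 0 → th ^ 2 = 3 → PL x0 x1 x2 y0 y1 y2 → s ≠ 0 → t ≠ 0 →
  ChU th x0 x1 x2 y0 y1 y2 s t mu eta mu2 eta2 H be g rho →
  ChD th x0 x1 x2 y0 y1 y2 s t g rho →
  ChH th x0 x1 x2 y0 y1 y2 s t mu eta mu2 eta2 H be g

/-- (CH4) the form b -/
def S_CH4 : Prop := ∀ (L : Type) [Field L] (th x0 x1 x2 y0 y1 y2 s t mu eta mu2 eta2 H be g rho : L),
  (2 : L) ≠ 0 → th ^ 2 = 3 → PL x0 x1 x2 y0 y1 y2 → s ≠ 0 → t ≠ 0 →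
  ChU th x0 x1 x2 y0 y1 y2 s t mu eta mu2 eta2 H be g rho →
  ChD th x0 x1 x2 y0 y1 y2 s t g rho →
  ChB th x0 x1 x2 y0 y1 y2 s t g

/-! ## Frobenius layer -/

structure HD (L : Type) [Field L] where
  q : ℕ
  add : ∀ x y : L, (x + y) ^ q = x ^ q + y ^ q
  qz : (q : L) = 0
  h4 : q % 4 = 1
  h5 : 5 ≤ q
  th : L
  th2 : th ^ 2 = 3
  thq : th ^ q = -th
  ii : L
  ii2 : ii ^ 2 = -1
  iiq : ii ^ q = ii

namespace HD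
variable {L : Type} [Field L] (D : HD L)

/-- `x` is (a representative of) a generator -/
def isL (x : L) : Prop := x ≠ 0 ∧ x ^ (D.q ^ 6) = x ∧
  x * x ^ (D.q ^ 3) + x ^ (D.q ^ 2) * x ^ (D.q ^ 5) + x ^ (D.q ^ 4) * x ^ D.q = 0

/-- `(P,Y)` is a rational vector -/
def Pt (P Y : L) : Prop := P ^ (D.q ^ 6) = P ∧ Y ^ (D.q ^ 2) = Y

/-- `(P,Y)` is a rational isotropic vector -/
def Iso (P Y : L) : Prop := D.Pt P Y ∧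
  Y * Y ^ D.q + (P * P ^ (D.q ^ 3) + P ^ (D.q ^ 2) * P ^ (D.q ^ 5) + P ^ (D.q ^ 4) * P ^ D.q) = 0

/-- the rational vector `(P,Y)` lies on the generator `x` -/
def mem (x P Y : L) : Prop := D.Pt P Y ∧
  x ^ (D.q ^ 2) * P ^ (D.q ^ 4) - x ^ (D.q ^ 4) * P ^ (D.q ^ 2) = Y * x ^ (D.q ^ 3)

/-- the quartic of a generator -/
noncomputable def Phi (x : L) : L[X] :=
  C (x ^ 2) * X ^ 4 - C (4 * x ^ (D.q ^ 5) * x ^ D.q) * X ^ 3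
    - C (2 * D.th * (x ^ (D.q ^ 2) * x ^ (D.q ^ 5) - x ^ (D.q ^ 4) * x ^ D.q)) * X ^ 2
    + C (4 * x ^ (D.q ^ 2) * x ^ (D.q ^ 4)) * X - C ((x ^ (D.q ^ 3)) ^ 2)

noncomputable def CC (P Y : L) : L[X] :=
  C (P ^ 2) * X ^ 3 - C (D.th * Y * P) * X ^ 2 + C (Y ^ 2) * X + C (P ^ (D.q ^ 2) * P ^ (D.q ^ 4))

noncomputable def CD (P Y : L) : L[X] :=
  C (P ^ (D.q ^ 5) * P ^ D.q) * X ^ 3 + C ((Y ^ D.q) ^ 2) * X ^ 2 + C (D.th * Y ^ D.q * P ^ (D.q ^ 3)) * X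
    + C ((P ^ (D.q ^ 3)) ^ 2)

noncomputable def BP (P Y : L) : L[X] :=
  C (-D.th * P * P ^ D.q) * X ^ (2 * D.q + 2) + C (2 * P ^ D.q * Y) * X ^ (2 * D.q + 1)
    - C (Y ^ D.q * P ^ (D.q ^ 2)) * X ^ (2 * D.q) - C (2 * P * Y ^ D.q) * X ^ (D.q + 2)
    - C (2 * D.th * (P * P ^ (D.q ^ 3) + P ^ (D.q ^ 4) * P ^ D.q)) * X ^ (D.q + 1)
    + C (2 * P ^ (D.q ^ 3) * Y) * X ^ D.q + C (Y * P ^ (D.q ^ 5)) * X ^ 2
    - C (2 * P ^ (D.q ^ 4) * Y ^ D.q) * X - C (D.th * P ^ (D.q ^ 4) * P ^ (D.q ^ 3))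

/-- the Stepanov polynomial -/
noncomputable def G (e P Y : L) : L[X] :=
  D.BP P Y - C (2 * e) * (X ^ ((D.q + 1) / 2) * D.CC P Y ^ ((D.q + 1) / 2) - D.CD P Y ^ ((D.q + 1) / 2))

/-- root datum of the generator `x` -/
def RD (x s mu eta : L) : Prop := s ≠ 0 ∧
  RDa D.th x (x ^ (D.q ^ 2)) (x ^ (D.q ^ 4)) (x ^ (D.q ^ 3)) (x ^ (D.q ^ 5)) (x ^ D.q) s mu eta

/-- next root `t = s^(-q)`, in frame 2 (= frame 0 of `x^(q^4)`) -/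
def nt (s : L) : L := (s ^ D.q)⁻¹
/-- the transformation M on root data: `(s,mu,eta)` for `x` gives `(nt s, mM, mE)` for `x^(q^4)` -/
def mM (x s mu eta : L) : L :=
  (2 * mu ^ D.q - D.th * eta ^ D.q) * (x ^ D.q * s ^ (2 * D.q) / x ^ (D.q ^ 4))
def mE (x s mu eta : L) : L :=
  (2 * eta ^ D.q - D.th * mu ^ D.q) * (x ^ D.q * s ^ (2 * D.q) / x ^ (D.q ^ 4))

/-- chord structure for the pair of roots `s` (frame 0), `t` (frame 2) of the generator `x` -/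
def C2 (x s t mu eta mu2 eta2 H be g rho : L) : Prop :=
  Ch D.th x (x ^ (D.q ^ 2)) (x ^ (D.q ^ 4)) (x ^ (D.q ^ 3)) (x ^ (D.q ^ 5)) (x ^ D.q)
    s t mu eta mu2 eta2 H be g rho

/-- signed simple root: `e` is the sign of the simple root `s` of the generator `x` -/
def Sg (x s mu eta e be g rho : L) : Prop :=
  D.RD x s mu eta ∧ mu + D.th * eta ≠ 0 ∧
  D.C2 x s (D.nt s) mu eta (D.mM x s mu eta) (D.mE x s mu eta) e be g rho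

/-- all rational points of `x` are zeros of `G e` at `s` -/
def Zr (x s e : L) : Prop := ∀ P Y, D.mem x P Y → (D.G e P Y).eval s = 0

/-- circle and norm -/
def circ (s : L) : Prop := s ^ (D.q ^ 3 + 1) = 1
def Nm (s : L) : L := s ^ (1 + D.q ^ 2 + D.q ^ 4)

/-- `ε`-sign of a circle root -/
def Ep (x s mu eta ep : L) : Prop := (ep = 1 ∨ ep = -1) ∧
  mu ^ (D.q ^ 3) = ep * ((2 * mu + D.th * eta) * (s ^ 2 * x / x ^ (D.q ^ 3))) ∧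
  eta ^ (D.q ^ 3) = ep * ((D.th * mu + 2 * eta) * (s ^ 2 * x / x ^ (D.q ^ 3)))

/-- `(P,Y)` is special at `s` -/
def Spc (s P Y : L) : Prop := s * P = D.nt s * P ^ (D.q ^ 4) ∧
  s * P = -(P ^ (D.q ^ 2) / (s * D.nt s)) ∧ Y = D.th * (s * P)

/-- structure of a ramified generator at its triple root `s` -/
def Ram (x s mu eta be g ep : L) : Prop :=
  D.RD x s mu eta ∧ mu + D.th * eta = 0 ∧ eta ≠ 0 ∧ D.circ s ∧ D.Nm s = -1 ∧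
  be ≠ 0 ∧ g ≠ 0 ∧ be ^ 2 = 1 + g ^ 2 ∧ D.Ep x s mu eta ep ∧
  (∀ P0 P1 P2 Y, OnL x (x ^ (D.q ^ 2)) (x ^ (D.q ^ 4)) (x ^ (D.q ^ 3)) (x ^ (D.q ^ 5)) (x ^ D.q) P0 P1 P2 Y →
     l2 D.th s (D.nt s) P0 P1 P2 Y = 0 ∧
     Y + D.th * (P1 / (s * D.nt s)) = g * l1 s (D.nt s) P0 P2 ∧
     2 * (mu * s * P0 + eta * Y) = be * l1 s (D.nt s) P0 P2) ∧
  (∀ R0 R1 R2 Z, OnL (x ^ (D.q ^ 3)) (x ^ (D.q ^ 5)) (x ^ D.q) x (x ^ (D.q ^ 2)) (x ^ (D.q ^ 4)) R0 R1 R2 Z →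
     m2 D.th s (D.nt s) R0 R1 R2 Z = 0 ∧
     Z - D.th * (s * D.nt s * R1) = m1 s (D.nt s) R0 R2 / g) ∧
  (∀ P Y, D.mem x P Y →
     2 * (mu * s * P + eta * Y) ^ D.q = ep * (be / g) * m1 s (D.nt s) (P ^ (D.q ^ 3)) (P ^ D.q)) ∧
  D.Phi x = C (x ^ 2) * (X - C s) ^ 3 * (X - C (s * (1 - 4 * eta ^ 2)))

end HD

end Pool.Agent.TH614.HS
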