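import Pool.Agent.TH614.HS.Defs2

/-! More statements of project HS: splitting of the ramified case, of the product formula,
and the combinatorial end. -/

set_option autoImplicit false

namespace Pool.Agent.TH614.HS

open Polynomial

/-- (L2R) converse of L2: if both roots are multiple then `l2` vanishes on the line -/
def S_L2R : Prop := ∀ (L : Type) [Field L] (th x0 x1 x2 y0 y1 y2 s t mu eta mu2 eta2 : L),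
  (2 : L) ≠ 0 → th ^ 2 = 3 →
  PL x0 x1 x2 y0 y1 y2 → s ≠ 0 → t ≠ 0 → RDa th x0 x1 x2 y0 y1 y2 s mu eta →
  RDa th x2 x0 x1 y2 y0 y1 t mu2 eta2 → mu + th * eta = 0 → mu2 + th * eta2 = 0 →
  ∀ P0 P1 P2 Y, OnL x0 x1 x2 y0 y1 y2 P0 P1 P2 Y → l2 th s t P0 P1 P2 Y = 0

/-- (RAMB) -/
def S_RAMB : Prop := ∀ (L : Type) [Field L] (th x0 x1 x2 y0 y1 y2 s t mu eta : L),
  (2 : L) ≠ 0 → th ^ 2 = 3 →
  PL x0 x1 x2 y0 y1 y2 → s ≠ 0 → t ≠ 0 → RDa th x0 x1 x2 y0 y1 y2 s mu eta →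
  eta ≠ 0 → mu + th * eta = 0 →
  (∀ P0 P1 P2 Y, OnL x0 x1 x2 y0 y1 y2 P0 P1 P2 Y → l2 th s t P0 P1 P2 Y = 0) →
  (∃ P0 P1 P2 Y, OnL x0 x1 x2 y0 y1 y2 P0 P1 P2 Y ∧ l1 s t P0 P2 ≠ 0) →
  ∃ be g : L, be ≠ 0 ∧ be ^ 2 = 1 + g ^ 2 ∧
    ∀ P0 P1 P2 Y, OnL x0 x1 x2 y0 y1 y2 P0 P1 P2 Y →
      Y + th * (P1 / (s * t)) = g * l1 s t P0 P2 ∧
      2 * (mu * s * P0 + eta * Y) = be * l1 s t P0 P2

/-- (RAMC) -/
def S_RAMC : Prop := ∀ (L : Type) [Field L] (th x0 x1 x2 y0 y1 y2 s t mu eta be g : L),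
  (2 : L) ≠ 0 → th ^ 2 = 3 →
  PL x0 x1 x2 y0 y1 y2 → s ≠ 0 → t ≠ 0 → g ≠ 0 → be ≠ 0 → be ^ 2 = 1 + g ^ 2 →
  eta ≠ 0 → mu + th * eta = 0 →
  (∀ P0 P1 P2 Y, OnL x0 x1 x2 y0 y1 y2 P0 P1 P2 Y →
      l2 th s t P0 P1 P2 Y = 0 ∧
      Y + th * (P1 / (s * t)) = g * l1 s t P0 P2 ∧
      2 * (mu * s * P0 + eta * Y) = be * l1 s t P0 P2) →
  (∃ P0 P1 P2 Y, OnL x0 x1 x2 y0 y1 y2 P0 P1 P2 Y ∧ l1 s t P0 P2 ≠ 0) →
  (∀ R0 R1 R2 Z, OnL y0 y1 y2 x0 x1 x2 R0 R1 R2 Z → m2 th s t R0 R1 R2 Z = 0) →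
  ∀ R0 R1 R2 Z, OnL y0 y1 y2 x0 x1 x2 R0 R1 R2 Z →
      Z - th * (s * t * R1) = m1 s t R0 R2 / g ∧
      2 * hat th s x0 y0 mu eta R0 Z = (be / g) * m1 s t R0 R2

/-- the 2x2 minors of two generators through a point -/
def Mnr {L : Type} [Field L] (a0 a1 a2 a3 a4 a5 b0 b1 b2 b3 b4 b5 c P0 P1 P2 R0 R1 R2 Y Z : L) : Prop :=
  a1 * b2 - a2 * b1 = c * Y * R0 ∧ a2 * b0 - a0 * b2 = c * Y * R1 ∧ a0 * b1 - a1 * b0 = c * Y * R2 ∧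
  a4 * b5 - a5 * b4 = -c * Z * P0 ∧ a5 * b3 - a3 * b5 = -c * Z * P1 ∧ a3 * b4 - a4 * b3 = -c * Z * P2 ∧
  a0 * b3 - b0 * a3 = -c * (P0 * R0 + Y * Z) ∧ a0 * b4 - b0 * a4 = -c * (P0 * R1) ∧
  a0 * b5 - b0 * a5 = -c * (P0 * R2) ∧
  a1 * b3 - b1 * a3 = -c * (P1 * R0) ∧ a1 * b4 - b1 * a4 = -c * (P1 * R1 + Y * Z) ∧
  a1 * b5 - b1 * a5 = -c * (P1 * R2) ∧
  a2 * b3 - b2 * a3 = -c * (P2 * R0) ∧ a2 * b4 - b2 * a4 = -c * (P2 * R1) ∧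
  a2 * b5 - b2 * a5 = -c * (P2 * R2 + Y * Z)

/-- (PC) -/
def S_PC : Prop := ∀ (L : Type) [Field L] (D : HD L) (P Y a b : L), D.Iso P Y → P ≠ 0 →
  D.isL a → D.isL b → D.mem a P Y → D.mem b P Y →
  (∀ u v, u ^ D.q = u → v ^ D.q = v → u * a + v * b = 0 → u = 0 ∧ v = 0) →
  ∃ c : L, c ≠ 0 ∧ c ^ D.q = -c ∧
    Mnr a (a ^ (D.q ^ 2)) (a ^ (D.q ^ 4)) (a ^ (D.q ^ 3)) (a ^ (D.q ^ 5)) (a ^ D.q)
      b (b ^ (D.q ^ 2)) (b ^ (D.q ^ 4)) (b ^ (D.q ^ 3)) (b ^ (D.q ^ 5)) (b ^ D.q) c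
      P (P ^ (D.q ^ 2)) (P ^ (D.q ^ 4)) (P ^ (D.q ^ 3)) (P ^ (D.q ^ 5)) (P ^ D.q) Y (Y ^ D.q)

/-- (PRI) the two identities behind the product formula, with `ta` in place of `s^q` -/
def S_PRI : Prop := ∀ (K : Type) [CommRing K]
  (th a0 a1 a2 a3 a4 a5 b0 b1 b2 b3 b4 b5 c P0 P1 P2 R0 R1 R2 Y Z s ta : K), th ^ 2 = 3 →
  Y * Z + (P0 * R0 + P1 * R1 + P2 * R2) = 0 →
  a1 * b2 - a2 * b1 = c * Y * R0 → a2 * b0 - a0 * b2 = c * Y * R1 → a0 * b1 - a1 * b0 = c * Y * R2 →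
  a4 * b5 - a5 * b4 = -c * Z * P0 → a5 * b3 - a3 * b5 = -c * Z * P1 → a3 * b4 - a4 * b3 = -c * Z * P2 →
  a0 * b3 - b0 * a3 = -c * (P0 * R0 + Y * Z) → a0 * b4 - b0 * a4 = -c * (P0 * R1) →
  a0 * b5 - b0 * a5 = -c * (P0 * R2) →
  a1 * b3 - b1 * a3 = -c * (P1 * R0) → a1 * b4 - b1 * a4 = -c * (P1 * R1 + Y * Z) →
  a1 * b5 - b1 * a5 = -c * (P1 * R2) →
  a2 * b3 - b2 * a3 = -c * (P2 * R0) → a2 * b4 - b2 * a4 = -c * (P2 * R1) →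
  a2 * b5 - b2 * a5 = -c * (P2 * R2 + Y * Z) →
  ∀ (A B E A' B' E' BB CC CD CC' CD' : K),
  E = a0 ^ 2 * s ^ 4 - 4 * a4 * a5 * s ^ 3 - 2 * th * (a1 * a4 - a2 * a5) * s ^ 2 + 4 * a1 * a2 * s - a3 ^ 2 →
  A = b0 ^ 2 * s ^ 4 - 4 * b4 * b5 * s ^ 3 - 2 * th * (b1 * b4 - b2 * b5) * s ^ 2 + 4 * b1 * b2 * s - b3 ^ 2 →
  B = 2 * a0 * b0 * s ^ 4 - 4 * (a4 * b5 + b4 * a5) * s ^ 3
      - 2 * th * (a1 * b4 + b1 * a4 - a2 * b5 - b2 * a5) * s ^ 2 + 4 * (a1 * b2 + b1 * a2) * s - 2 * a3 * b3 →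
  E' = a5 ^ 2 * ta ^ 4 - 4 * a0 * a1 * ta ^ 3 + 2 * th * (a3 * a0 - a4 * a1) * ta ^ 2
      + 4 * a3 * a4 * ta - a2 ^ 2 →
  A' = b5 ^ 2 * ta ^ 4 - 4 * b0 * b1 * ta ^ 3 + 2 * th * (b3 * b0 - b4 * b1) * ta ^ 2
      + 4 * b3 * b4 * ta - b2 ^ 2 →
  B' = 2 * a5 * b5 * ta ^ 4 - 4 * (a0 * b1 + b0 * a1) * ta ^ 3
      + 2 * th * (a3 * b0 + b3 * a0 - a4 * b1 - b4 * a1) * ta ^ 2 + 4 * (a3 * b4 + b3 * a4) * ta
      - 2 * a2 * b2 →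
  BB = -th * P0 * R2 * (ta ^ 2 * s ^ 2) + 2 * R2 * Y * (ta ^ 2 * s) - Z * P1 * ta ^ 2
      - 2 * P0 * Z * (ta * s ^ 2) - 2 * th * (P0 * R0 + P2 * R2) * (ta * s) + 2 * R0 * Y * ta
      + Y * R1 * s ^ 2 - 2 * P2 * Z * s - th * P2 * R0 →
  CC = P0 ^ 2 * s ^ 3 - th * Y * P0 * s ^ 2 + Y ^ 2 * s + P1 * P2 →
  CD = R1 * R2 * s ^ 3 + Z ^ 2 * s ^ 2 + th * Z * R0 * s + R0 ^ 2 →
  CC' = R2 ^ 2 * ta ^ 3 + th * Z * R2 * ta ^ 2 + Z ^ 2 * ta + R0 * R1 →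
  CD' = P0 * P1 * ta ^ 3 + Y ^ 2 * ta ^ 2 - th * Y * P2 * ta + P2 ^ 2 →
  B ^ 2 - 4 * A * E = 16 * c ^ 2 * (s * CC * CD) ∧
  B * B' - 2 * A * E' - 2 * E * A' = 2 * c ^ 2 * (BB ^ 2 - 4 * (s * ta * (CC * CC')) - 4 * (CD * CD'))

/-- (T) sign formula at a simple circle root -/
def S_T : Prop := ∀ (L : Type) [Field L] [IsAlgClosed L] (D : HD L) (x s mu eta e be g rho ep : L),
  D.isL x → D.circ s → D.Sg x s mu eta e be g rho → D.Ep x s mu eta ep →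
  e = ep * D.Nm s ^ ((D.q + 1) / 2)

/-- (CSn), (CS3): the two cases of CS -/
def S_CSn : Prop := ∀ (L : Type) [Field L] [IsAlgClosed L] (D : HD L) (n : L), (3 : L) ≠ 0 →
  n ^ (D.q + 1) = 1 → {y : L | D.isL y ∧ PiN D n y}.ncard = D.q ^ 2 - 1

def S_CS3 : Prop := ∀ (L : Type) [Field L] [IsAlgClosed L] (D : HD L) (n : L), (3 : L) = 0 →
  n ^ (D.q + 1) = 1 → {y : L | D.isL y ∧ PiN D n y}.ncard = D.q ^ 2 - 1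

/-- (SP3) all generators through a special point are ramified there -/
def S_SP3 : Prop := ∀ (L : Type) [Field L] [IsAlgClosed L] (D : HD L) (s P Y x : L),
  s ≠ 0 → P ≠ 0 → D.isL x → D.mem x P Y → D.Spc s P Y →
  (D.Phi x).eval s = 0 ∧ ∀ mu eta, D.RD x s mu eta → mu + D.th * eta = 0

/-- (DICH) every root is either simple with a sign or ramified -/
def S_DICH : Prop := ∀ (L : Type) [Field L] [IsAlgClosed L] (D : HD L) (x s : L), D.isL x →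
  ((D.Phi x).eval s = 0 →
    (∃ mu eta e be g rho, D.Sg x s mu eta e be g rho) ∨ (∃ mu eta be g ep, D.Ram x s mu eta be g ep)) ∧
  (∀ mu eta e be g rho, D.Sg x s mu eta e be g rho →
    (e = 1 ∨ e = -1) ∧ (D.Phi x).eval s = 0 ∧ (D.Phi x).rootMultiplicity s = 1) ∧
  (∀ mu eta be g ep, D.Ram x s mu eta be g ep →
    (ep = 1 ∨ ep = -1) ∧ (D.Phi x).eval s = 0 ∧ (D.Phi x).rootMultiplicity s = 3)

/-- (EX) every generator has a simple circle root of the first kind -/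
def S_EX : Prop := ∀ (L : Type) [Field L] [IsAlgClosed L] (D : HD L) (x : L), D.isL x →
  ∃ s mu eta, D.circ s ∧ D.Nm s ^ ((D.q + 1) / 2) = 1 ∧ D.RD x s mu eta ∧ mu + D.th * eta ≠ 0

/-- positive generators: majority of the signs is `+1` -/
def Pos {L : Type} [Field L] (D : HD L) (x : L) : Prop :=
  2 ≤ {s : L | (D.Phi x).eval s = 0 ∧ D.Zr x s 1}.ncard

/-- sign of a generator -/
noncomputable def sgL {L : Type} [Field L] (D : HD L) (x : L) : ℤ :=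
  open Classical in if Pos D x then 1 else -1

/-- signed contribution of the root `s` of the generator `x` -/
noncomputable def sgS {L : Type} [Field L] (D : HD L) (x s : L) : ℤ :=
  open Classical in
  if (D.Phi x).eval s ≠ 0 then 0
  else if (D.Phi x).rootMultiplicity s = 1 then (if D.Zr x s 1 then 1 else -1) else sgL D x

/-- (LINE) -/
def S_LINE : Prop := ∀ (L : Type) [Field L] [IsAlgClosed L] (D : HD L) (x : L), D.isL x →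
  (∀ s mu eta be g ep, D.Ram x s mu eta be g ep → (ep = 1 ↔ Pos D x)) ∧
  ∑ᶠ s : L, sgS D x s = 2 * sgL D x

/-- (INV) -/
def S_INV : Prop := ∀ (L : Type) [Field L] [IsAlgClosed L] (D : HD L),
  (∀ x c, D.isL x → c ^ D.q = c → c ≠ 0 → (Pos D (c * x) ↔ Pos D x)) ∧
  (∀ x a, D.isL x → a ^ (D.q ^ 2 - D.q + 1) = 1 → (Pos D (a * x) ↔ Pos D x))

/-- (POINT) -/
def S_POINT : Prop := ∀ (L : Type) [Field L] [IsAlgClosed L] (D : HD L) (P Y a b s : L), D.Iso P Y → P ≠ 0 →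
  D.isL a → D.isL b → D.mem a P Y → D.mem b P Y →
  (∀ u v, u ^ D.q = u → v ^ D.q = v → u * a + v * b = 0 → u = 0 ∧ v = 0) → s ≠ 0 → ¬ D.Spc s P Y →
  ((D.G 1 P Y).rootMultiplicity s : ℤ) - ((D.G (-1) P Y).rootMultiplicity s : ℤ)
    = sgS D b s + ∑ l ∈ kset D, sgS D (a + l * b) s

/-- (SPM) multiplicities at a special point -/
def S_SPM : Prop := ∀ (L : Type) [Field L] [IsAlgClosed L] (D : HD L) (P Y a b s : L), D.Iso P Y → P ≠ 0 →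
  D.isL a → D.isL b → D.mem a P Y → D.mem b P Y →
  (∀ u v, u ^ D.q = u → v ^ D.q = v → u * a + v * b = 0 → u = 0 ∧ v = 0) → s ≠ 0 → D.Spc s P Y →
  (D.G 1 P Y).rootMultiplicity s = (D.G (-1) P Y).rootMultiplicity s ∧
  sgS D b s = sgL D b ∧ (∀ l ∈ kset D, sgS D (a + l * b) s = sgL D (a + l * b)) ∧
  ∀ s', s' ≠ 0 → s' ≠ s → ¬ D.Spc s' P Y

end Pool.Agent.TH614.HS
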